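import Pool.Agent.helper60.DA.SpecW

/-!
# Row dw:FD
-/

set_option autoImplicit false

namespace Pool.Agent.helper60.DA

open Polynomial Finset Pool.Agent.helper60.DK

theorem FD_alg {k : Type} [CommRing k] (z w v W A f1 f2 c P : k[X]) (hz : derivative z = 0)
    (hc : derivative c = 0) (hP : P = A * W) :
    derivative (z * (1 + 4 * z) * w + (1 + 2 * z) ^ 2 * (A * v)
        + P * (c * z * f1 + c * (8 * z + 3) * f2)) * P
      - (z * (1 + 4 * z) * w + (1 + 2 * z) ^ 2 * (A * v)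
        + P * (c * z * f1 + c * (8 * z + 3) * f2)) * derivative P
      = z * (1 + 4 * z) * (derivative w * P - w * derivative P)
        + (1 + 2 * z) ^ 2 * A ^ 2 * (derivative v * W - v * derivative W)
        + P ^ 2 * (c * z * derivative f1 + c * (8 * z + 3) * derivative f2) := by
  subst hP
  simp only [derivative_add, derivative_mul, derivative_pow, hz, hc, derivative_one,
    derivative_ofNat]
  ring

theorem FD_frob {p : ℕ} [hp : Fact p.Prime] :
    (1 + 4 * X : (ZMod p)[X]) ^ p = 1 + 4 * X ^ p := by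
  rw [add_pow_char, one_pow, mul_pow]
  congr 2
  have e : (4 : (ZMod p)[X]) = C 4 := rfl
  rw [e, ← C_pow, ZMod.pow_card]

theorem FD_fin {k : Type} [CommRing k] (X z A W P v w v' W' w' P' g1 g2 c d Y B Z : k)
    (hc : 2 * c = 1) (hd : 2 * d = 3) (hP : P = A * W) (hA : (1 + 4 * X) * A ^ 2 = 1 + 4 * z)
    (hY : X * Y = z) (hB : (1 + X) * B = 1 + z) (hZ : (1 + 4 * X) * Z = 1 + 4 * z)
    (h1 : g1 = 4 * Z - 4 * Y) (h2 : g2 = B - Y)
    (hw : X * (1 + X) * (1 + 4 * X) * (w' * P - w * P') - d * (1 + 2 * X) ^ 2 * P ^ 2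
      = - d * (1 + 2 * z) ^ 2 * P)
    (hv : X * ((1 + X) * (v' * W - v * W') + d * W ^ 2) = d * z * P) :
    (2 * X * (1 + X) * (1 + 4 * X)) * (z * (1 + 4 * z) * (w' * P - w * P')
        + (1 + 2 * z) ^ 2 * A ^ 2 * (v' * W - v * W')
        + P ^ 2 * (c * z * g1 + c * (8 * z + 3) * g2)) = 0 := by
  have e1 : (2 * X * (1 + X) * (1 + 4 * X)) * (z * (1 + 4 * z) * (w' * P - w * P'))
      = 3 * z * (1 + 4 * z) * ((1 + 2 * X) ^ 2 * P ^ 2 - (1 + 2 * z) ^ 2 * P) := by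
    linear_combination (2 * z * (1 + 4 * z)) * hw + (z * (1 + 4 * z) * ((1 + 2 * X) ^ 2 * P ^ 2
      - (1 + 2 * z) ^ 2 * P)) * hd
  have e2 : (2 * X * (1 + X) * (1 + 4 * X)) * ((1 + 2 * z) ^ 2 * A ^ 2 * (v' * W - v * W'))
      = 3 * (1 + 2 * z) ^ 2 * (1 + 4 * z) * z * P - 3 * (1 + 2 * z) ^ 2 * X * (1 + 4 * X) * P ^ 2 := by
    have e0 : (2 * X * (1 + X) * (1 + 4 * X)) * ((1 + 2 * z) ^ 2 * A ^ 2 * (v' * W - v * W'))
        = (2 * (1 + 2 * z) ^ 2) * ((1 + 4 * X) * A ^ 2) * (X * (1 + X) * (v' * W - v * W')) := by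
      ring
    have e3 : X * (1 + X) * (v' * W - v * W') = d * z * P - d * X * W ^ 2 := by
      linear_combination hv
    have e4 : (1 + 4 * z) * W ^ 2 = (1 + 4 * X) * P ^ 2 := by
      rw [hP, ← hA]
      ring
    rw [e0, hA, e3]
    linear_combination ((1 + 2 * z) ^ 2 * (1 + 4 * z) * (z * P - X * W ^ 2)) * hd
      - (3 * (1 + 2 * z) ^ 2 * X) * e4
  have e5 : (2 * X * (1 + X) * (1 + 4 * X)) * (P ^ 2 * (c * z * g1 + c * (8 * z + 3) * g2))
      = P ^ 2 * ((X - z) * (4 * z * (1 + X) + (8 * z + 3) * (1 + 4 * X))) := by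
    have e6 : (X * (1 + X) * (1 + 4 * X)) * g1 = 4 * (1 + X) * (X - z) := by
      rw [h1]
      linear_combination (4 * X * (1 + X)) * hZ - (4 * (1 + X) * (1 + 4 * X)) * hY
    have e7 : (X * (1 + X) * (1 + 4 * X)) * g2 = (1 + 4 * X) * (X - z) := by
      rw [h2]
      linear_combination (X * (1 + 4 * X)) * hB - ((1 + X) * (1 + 4 * X)) * hY
    have e8 : (2 * X * (1 + X) * (1 + 4 * X)) * (P ^ 2 * (c * z * g1 + c * (8 * z + 3) * g2))
        = (2 * c) * P ^ 2 * (z * ((X * (1 + X) * (1 + 4 * X)) * g1)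
          + (8 * z + 3) * ((X * (1 + X) * (1 + 4 * X)) * g2)) := by ring
    rw [e8, hc, e6, e7]
    ring
  rw [mul_add, mul_add, e1, e2, e5]
  ring

theorem FD (fo : FO_stmt) (fw2 : FW2_stmt) (phd : PHD_stmt) : FD_stmt := by
  intro p hp h7 h3 V V2 hV hV2
  have h5 : 5 ≤ p := by omega
  have hh2 := two_hh (p := p) h5
  have hfo := fo p h7 h3 V hV
  have hfw := fw2 p h7 h3 V2 hV2
  obtain ⟨phd1, phd2, -, -⟩ := phd p h5
  have phd1 := phd1 1
  rw [Int.cast_one] at phd1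
  unfold Th at hfo
  unfold Tw at hfw
  have hz : derivative ((X : (ZMod p)[X]) ^ p) = 0 := by
    rw [derivative_X_pow, CharP.cast_eq_zero, C_0, zero_mul]
  have hc : derivative (C (1 / 2) : (ZMod p)[X]) = 0 := derivative_C
  have hne : (2 * X * (1 + X) * (1 + 4 * X) : (ZMod p)[X]) ≠ 0 := by
    intro h
    have h1 := congrArg (eval 1) h
    simp only [eval_mul, eval_add, eval_one, eval_X, eval_ofNat, eval_zero] at h1
    have e : (2 : ZMod p) * 1 * (1 + 1) * (1 + 4 * 1) = 4 * 5 := by norm_num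
    rw [e] at h1
    have h2 : (5 : ZMod p) ≠ 0 := by
      have := cast_ne_zero_of_lt (p := p) (m := 5) (by norm_num) (by omega)
      exact_mod_cast this
    exact mul_ne_zero (four_ne h5) h2 h1
  have hC2 : (2 : (ZMod p)[X]) * C (1 / 2) = 1 := by
    have e : (2 : (ZMod p)[X]) = C 2 := rfl
    rw [e, ← C_mul, mul_one_div_cancel (two_ne h5), C_1]
  have hC3 : (2 : (ZMod p)[X]) * C (3 / 2) = 3 := by
    have e : (2 : (ZMod p)[X]) = C 2 := rfl
    rw [e, ← C_mul, mul_div_cancel₀ _ (two_ne h5)]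
    rfl
  have hpm : p - 1 + 1 = p := by omega
  have hY : (X : (ZMod p)[X]) * X ^ (p - 1) = X ^ p := by rw [← pow_succ', hpm]
  have hB : (1 + X : (ZMod p)[X]) * (X + 1) ^ (p - 1) = 1 + X ^ p := by
    rw [add_comm 1 X, ← pow_succ', hpm, add_pow_char, one_pow, add_comm]
  have hZ : (1 + 4 * X : (ZMod p)[X]) * (1 + 4 * X) ^ (p - 1) = 1 + 4 * X ^ p := by
    rw [← pow_succ', hpm, FD_frob]
  have hA : (1 + 4 * X : (ZMod p)[X]) * ((1 + 4 * X) ^ hh p) ^ 2 = 1 + 4 * X ^ p := by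
    have e : hh p * 2 + 1 = p := by omega
    rw [← pow_mul, ← pow_succ', e, FD_frob]
  have key := FD_fin X (X ^ p) ((1 + 4 * X) ^ hh p) (Wp p) (Pp p) (red p V) (red p V2)
    (derivative (red p V)) (derivative (Wp p)) (derivative (red p V2)) (derivative (Pp p))
    (derivative (ph p 1 (4 * X))) (derivative (ph p X 1))
    (C (1 / 2)) (C (3 / 2)) (X ^ (p - 1)) ((X + 1) ^ (p - 1)) ((1 + 4 * X) ^ (p - 1))
    hC2 hC3 rfl hA hY hB hZ phd2 phd1 hfw hfo
  have h0 := (mul_eq_zero.1 key).resolve_left hne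
  rw [← FD_alg (X ^ p) (red p V2) (red p V) (Wp p) ((1 + 4 * X) ^ hh p) (ph p 1 (4 * X))
    (ph p X 1) (C (1 / 2)) (Pp p) hz hc rfl] at h0
  exact sub_eq_zero.1 h0

end Pool.Agent.helper60.DA
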