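import Pool.Agent.helper60.DA.SpecW

/-!
# Row dw:SW
-/

set_option autoImplicit false

namespace Pool.Agent.helper60.DA

open Polynomial Finset Pool.Agent.helper60.DK

section
variable {p : ℕ} [hp : Fact p.Prime]

theorem SW_four_pow (h5 : 5 ≤ p) : (4 : ZMod p) ^ hh p = 1 := by
  have e : (4 : ZMod p) = 2 ^ 2 := by norm_num
  have e2 : 2 * hh p = p - 1 := by
    have := two_hh (p := p) h5
    omega
  rw [e, ← pow_mul, e2]
  exact ZMod.pow_card_sub_one_eq_one (two_ne h5)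

theorem SW_Xp_natDegree : ((X : (ZMod p)[X]) ^ p).natDegree ≤ p := natDegree_X_pow_le p

theorem SW_lin (a b : ZMod p) (n : ℕ) : (C a + C b * X ^ n : (ZMod p)[X]).natDegree ≤ n :=
  (natDegree_add_le _ _).trans (max_le (by rw [natDegree_C]; exact Nat.zero_le _)
    (natDegree_C_mul_X_pow_le _ _))

theorem SW_pow4 (n : ℕ) : ((1 + 4 * X : (ZMod p)[X]) ^ n).natDegree ≤ n ∧
    ((1 + 4 * X : (ZMod p)[X]) ^ n).coeff n = 4 ^ n := by
  have e : (1 + 4 * X : (ZMod p)[X]) = C 1 + C 4 * X ^ 1 := by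
    rw [C_1, pow_one]
    rfl
  have h1 : (1 + 4 * X : (ZMod p)[X]).natDegree ≤ 1 := by rw [e]; exact SW_lin 1 4 1
  have h2 : ((1 + 4 * X : (ZMod p)[X]) ^ n).natDegree ≤ n * 1 := natDegree_pow_le_of_le n h1
  rw [mul_one] at h2
  refine ⟨h2, ?_⟩
  have h3 : ((1 + 4 * X : (ZMod p)[X]) ^ n).coeff (n * 1) = ((1 + 4 * X : (ZMod p)[X]).coeff 1) ^ n :=
    coeff_pow_of_natDegree_le h1
  rw [mul_one] at h3
  rw [h3]
  congr 1
  rw [e, coeff_add, coeff_C_mul, pow_one, coeff_X_one, coeff_C]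
  simp

/-- degree and top coefficient of a product -/
theorem SW_mul {f g : (ZMod p)[X]} {a b : ℕ} {x y : ZMod p} (hf : f.natDegree ≤ a)
    (hg : g.natDegree ≤ b) (hx : f.coeff a = x) (hy : g.coeff b = y) :
    (f * g).natDegree ≤ a + b ∧ (f * g).coeff (a + b) = x * y := by
  refine ⟨natDegree_mul_le_of_le hf hg, ?_⟩
  rw [coeff_mul_add_eq_of_natDegree_le hf hg, hx, hy]

theorem SW_Pp (h5 : 5 ≤ p) (wl : (Wp p).coeff (3 * hh p) = 1) :
    (Pp p).natDegree ≤ 4 * hh p ∧ (Pp p).coeff (4 * hh p) = 1 := by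
  have h1 := SW_pow4 (p := p) (hh p)
  have h2 := SW_mul h1.1 (natDegree_Wp h5) h1.2 wl
  have e : hh p + 3 * hh p = 4 * hh p := by ring
  rw [e, SW_four_pow h5, one_mul] at h2
  exact h2

/-- `1 + 4 X^p = (1 + 4 X)^p` -/
theorem SW_frob : (1 + 4 * X ^ p : (ZMod p)[X]) = (1 + 4 * X) ^ hh p * (1 + 4 * X) ^ (p - hh p) := by
  have hle : hh p ≤ p := by
    unfold hh
    omega
  rw [← pow_add, Nat.add_sub_cancel' hle, add_pow_char, one_pow, mul_pow]
  congr 2
  have e : (4 : (ZMod p)[X]) = C 4 := rfl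
  rw [e, ← C_pow, ZMod.pow_card]

theorem SW_ev (a : ZMod p) (f g : (ZMod p)[X]) :
    eval a (ph p f g) = ph p (eval a f) (eval a g) := by
  have := map_ph (p := p) (evalRingHom a) f g
  simpa using this

end

theorem SW (fd : FD_stmt) (cst : CST_stmt) (npf : NPF_stmt) (wl : WL_stmt) (vex : VEX_stmt)
    (vtx : VTX_stmt) (vt : VT_stmt) (e14 : E14_stmt) (phv : PHV_stmt) (phd : PHD_stmt) :
    SW_stmt := by
  intro p hp h7 h3 V V2 hV hV2
  have h5 : 5 ≤ p := by omega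
  have hh2 := two_hh (p := p) h5
  have hp0 : p ≠ 0 := by omega
  obtain ⟨wl1, wl2⟩ := wl p h5
  have wl2 := wl2 h3
  have hvd : (red p V).natDegree ≤ 3 * hh p := natDegree_map_le.trans ((vex p h5).2 V hV).1
  have hv0 : (red p V).coeff 0 = 0 := by
    rw [coeff_map, ((vex p h5).2 V hV).2, map_zero]
  have hwd : (red p V2).natDegree ≤ 4 * hh p := natDegree_map_le.trans ((vtx p h5).2 V2 hV2)
  have hwt : (red p V2).coeff (4 * hh p) = 2 * Q2 p - (red p V).coeff (3 * hh p) :=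
    vt p h5 V V2 hV hV2
  have he14 := e14 p h7 h3 V hV
  have hfd := fd p h7 h3 V V2 hV hV2
  obtain ⟨hPd, hPt⟩ := SW_Pp h5 wl1
  have hP0 : Pp p ≠ 0 := by
    intro h
    rw [h, coeff_zero] at hPt
    exact zero_ne_one hPt
  obtain ⟨g, hg⟩ := cst p _ (Pp p) hP0 (by omega) (npf p h7 h3) hfd
  obtain ⟨-, phd2, phd3, phd4⟩ := phd p h5
  have phd3 := phd3 1
  rw [Int.cast_one] at phd3
  -- degrees
  have dX : ((X : (ZMod p)[X]) ^ p).natDegree ≤ p ∧ ((X : (ZMod p)[X]) ^ p).coeff p = 1 :=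
    ⟨natDegree_X_pow_le p, coeff_X_pow_self p⟩
  have d4 : (1 + 4 * X ^ p : (ZMod p)[X]).natDegree ≤ p ∧
      (1 + 4 * X ^ p : (ZMod p)[X]).coeff p = 4 := by
    have e : (1 + 4 * X ^ p : (ZMod p)[X]) = C 1 + C 4 * X ^ p := by
      rw [C_1]
      rfl
    refine ⟨by rw [e]; exact SW_lin 1 4 p, ?_⟩
    rw [e, coeff_add, coeff_C_mul, coeff_X_pow_self, coeff_C, if_neg hp0]
    simp
  have d2 : (1 + 2 * X ^ p : (ZMod p)[X]).natDegree ≤ p ∧
      (1 + 2 * X ^ p : (ZMod p)[X]).coeff p = 2 := by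
    have e : (1 + 2 * X ^ p : (ZMod p)[X]) = C 1 + C 2 * X ^ p := by
      rw [C_1]
      rfl
    refine ⟨by rw [e]; exact SW_lin 1 2 p, ?_⟩
    rw [e, coeff_add, coeff_C_mul, coeff_X_pow_self, coeff_C, if_neg hp0]
    simp
  have d83 : (8 * X ^ p + 3 : (ZMod p)[X]).natDegree ≤ p := by
    have e : (8 * X ^ p + 3 : (ZMod p)[X]) = C 3 + C 8 * X ^ p := by
      rw [add_comm]
      rfl
    rw [e]
    exact SW_lin 3 8 p
  have dA := SW_mul (SW_mul dX.1 d4.1 dX.2 d4.2).1 hwd (SW_mul dX.1 d4.1 dX.2 d4.2).2 hwt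
  have dv := SW_mul (SW_pow4 (p := p) (hh p)).1 hvd (SW_pow4 (p := p) (hh p)).2 rfl
  have e34 : hh p + 3 * hh p = 4 * hh p := by ring
  rw [e34] at dv
  have d22 := SW_mul d2.1 d2.1 d2.2 d2.2
  rw [← pow_two] at d22
  have dB := SW_mul d22.1 dv.1 d22.2 dv.2
  have dC0 : (C (1 / 2) * X ^ p * ph p 1 (4 * X) + C (1 / 2) * (8 * X ^ p + 3) * ph p X 1 :
      (ZMod p)[X]).natDegree ≤ p + (p - 1) := by
    refine (natDegree_add_le _ _).trans (max_le ?_ ?_)
    · exact natDegree_mul_le_of_le ((natDegree_C_mul_le _ _).trans dX.1) phd4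
    · exact natDegree_mul_le_of_le ((natDegree_C_mul_le _ _).trans d83) phd3
  have dC : (Pp p * (C (1 / 2) * X ^ p * ph p 1 (4 * X) + C (1 / 2) * (8 * X ^ p + 3) * ph p X 1 :
      (ZMod p)[X])).natDegree ≤ 4 * hh p + (p + (p - 1)) := natDegree_mul_le_of_le hPd dC0
  have dF : (Fw p (red p V) (red p V2)).natDegree ≤ p + p + 4 * hh p := by
    unfold Fw
    refine (natDegree_add_le _ _).trans (max_le ((natDegree_add_le _ _).trans
      (max_le dA.1 dB.1)) ?_)
    exact dC.trans (by omega)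
  have tF : (Fw p (red p V) (red p V2)).coeff (p + p + 4 * hh p) = 8 * Q2 p := by
    unfold Fw
    rw [coeff_add, coeff_add, dA.2, dB.2, coeff_eq_zero_of_natDegree_lt (lt_of_le_of_lt dC (by omega)),
      SW_four_pow h5]
    ring
  -- the degree of `g`
  have hPn : (Pp p).natDegree = 4 * hh p := by
    refine le_antisymm hPd (le_natDegree_of_ne_zero ?_)
    rw [hPt]
    exact one_ne_zero
  have hgd : g.natDegree ≤ 2 := by
    by_cases hg0 : g = 0
    · rw [hg0]
      simp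
    · have h1 : (expand (ZMod p) p g * Pp p).natDegree = g.natDegree * p + 4 * hh p := by
        rw [natDegree_mul ((expand_ne_zero (by omega)).2 hg0) hP0, natDegree_expand, hPn]
      rw [← hg] at h1
      rw [h1] at dF
      by_contra hc
      have h2 : 3 * p ≤ g.natDegree * p := Nat.mul_le_mul_right p (by omega)
      omega
  have hgq : g = C (g.coeff 2) * X ^ 2 + C (g.coeff 1) * X + C (g.coeff 0) :=
    eq_quadratic_of_degree_le_two (natDegree_le_iff_degree_le.1 hgd)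
  obtain ⟨g0, hg0e⟩ : ∃ g0, g0 = g.coeff 0 := ⟨_, rfl⟩
  obtain ⟨g1, hg1e⟩ : ∃ g1, g1 = g.coeff 1 := ⟨_, rfl⟩
  obtain ⟨g2, hg2e⟩ : ∃ g2, g2 = g.coeff 2 := ⟨_, rfl⟩
  rw [← hg0e, ← hg1e, ← hg2e] at hgq
  have hex : expand (ZMod p) p g = C g2 * X ^ (2 * p) + C g1 * X ^ p + C g0 := by
    rw [hgq]
    simp only [map_add, map_mul, map_pow, expand_C, expand_X]
    rw [← pow_mul, mul_comm p 2]
  rw [hex] at hg
  obtain ⟨v1, -, -, -, -, -, -, -, -, -, v11, v12, v13, -⟩ := phv p h5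
  -- value at 0
  have hc0 : g0 = 0 := by
    have h := congrArg (eval 0) hg
    have hW0 : eval 0 (Wp p) = 1 := by rw [← coeff_zero_eq_eval_zero, Wp_coeff_zero]
    have hv0' : eval 0 (red p V) = 0 := by rw [← coeff_zero_eq_eval_zero, hv0]
    have h0p : (0 : ZMod p) ^ p = 0 := zero_pow hp0
    have h02p : (0 : ZMod p) ^ (2 * p) = 0 := zero_pow (by omega)
    unfold Fw Pp at h
    simp only [eval_add, eval_mul, eval_pow, eval_C, eval_X, eval_one, eval_ofNat, SW_ev, hW0,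
      hv0', h0p, h02p, mul_zero, zero_mul, add_zero, one_pow, mul_one, zero_add,
      (v11 1).1] at h
    exact h.symm
  -- top coefficient
  have hc2 : g2 = 8 * Q2 p := by
    have h := congrArg (fun f => coeff f (p + p + 4 * hh p)) hg
    rw [tF] at h
    have hd : (C g2 * X ^ (2 * p) + C g1 * X ^ p + C g0 : (ZMod p)[X]).natDegree ≤ p + p ∧
        (C g2 * X ^ (2 * p) + C g1 * X ^ p + C g0 : (ZMod p)[X]).coeff (p + p) = g2 := by
      refine ⟨?_, ?_⟩
      · refine (natDegree_add_le _ _).trans (max_le ((natDegree_add_le _ _).trans (max_le ?_ ?_))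
          ?_)
        · exact (natDegree_C_mul_X_pow_le _ _).trans (by omega)
        · exact (natDegree_C_mul_X_pow_le _ _).trans (by omega)
        · rw [natDegree_C]
          exact Nat.zero_le _
      · rw [coeff_add, coeff_add, coeff_C_mul, coeff_C_mul, coeff_X_pow, coeff_X_pow, coeff_C,
          if_pos (by omega), if_neg (by omega), if_neg (by omega)]
        ring
    rw [(SW_mul hd.1 hPd hd.2 hPt).2, mul_one] at h
    exact h.symm
  -- value at -1/4
  have h4 := four_ne (p := p) h5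
  have h2 := two_ne (p := p) h5
  have hdiv : X ^ p * (1 + 4 * X) ^ (p - hh p) * red p V2 + (1 + 2 * X ^ p) ^ 2 * red p V
      + Wp p * (C (1 / 2) * X ^ p * ph p 1 (4 * X) + C (1 / 2) * (8 * X ^ p + 3) * ph p X 1)
      = (C g2 * X ^ (2 * p) + C g1 * X ^ p + C g0) * Wp p := by
    have hne : (1 + 4 * X : (ZMod p)[X]) ^ hh p ≠ 0 := by
      intro h
      have h1 := (SW_pow4 (p := p) (hh p)).2
      rw [h, coeff_zero, SW_four_pow h5] at h1
      exact zero_ne_one h1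
    apply mul_left_cancel₀ hne
    unfold Fw Pp at hg
    rw [SW_frob] at hg
    linear_combination hg
  have hc1 : g1 = 3 * Q2 p := by
    have h := congrArg (eval (-1 / 4)) hdiv
    have hzp : (0 : ZMod p) ^ (p - hh p) = 0 := zero_pow (by omega)
    have hz1 : 4 * (-1 / 4 : ZMod p) = -1 := by field_simp
    have hfp : (-1 / 4 : ZMod p) ^ p = -1 / 4 := ZMod.pow_card _
    have hf2p : (-1 / 4 : ZMod p) ^ (2 * p) = (-1 / 4) ^ 2 := by
      rw [mul_comm, pow_mul, hfp]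
    simp only [eval_add, eval_mul, eval_pow, eval_C, eval_X, eval_one, eval_ofNat, SW_ev, hfp,
      hf2p, hz1, add_neg_cancel, hzp, he14, v12, v13, hc0, hc2, mul_zero, zero_mul, zero_add,
      add_zero] at h
    have h8 : (8 : ZMod p) ≠ 0 := by
      have e : (8 : ZMod p) = 4 * 2 := by norm_num
      rw [e]
      exact mul_ne_zero h4 h2
    apply mul_left_cancel₀ (mul_ne_zero wl2 h8)
    generalize eval (-1 / 4) (Wp p) = w at h ⊢
    field_simp at h
    linear_combination h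
  rw [hg, hc0, hc1, hc2, C_0, add_zero]
  ring

end Pool.Agent.helper60.DA
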